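import Pool.Agent.Helper72.MK.Goals
import Pool.Agent.Helper47.AQ.Affine

open MeasureTheory Set
open Pool.Agent.Helper47.AQ Pool.Agent.Helper72.MK

noncomputable section

namespace Pool.Agent.Helper89.MK

/-- The linear equivalence which sends `z1`, `z2` to the unit vectors. -/
def eqv (z1 z2 : Fin 2 → ℝ) (h : z1 0 * z2 1 - z1 1 * z2 0 ≠ 0) :
    (Fin 2 → ℝ) ≃ₗ[ℝ] (Fin 2 → ℝ) where
  toFun x := ![(x 0 * z2 1 - x 1 * z2 0) / (z1 0 * z2 1 - z1 1 * z2 0),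
    (z1 0 * x 1 - z1 1 * x 0) / (z1 0 * z2 1 - z1 1 * z2 0)]
  map_add' x y := by
    funext i
    fin_cases i <;> simp <;> ring
  map_smul' c x := by
    funext i
    fin_cases i <;> simp <;> ring
  invFun y := fun i => y 0 * z1 i + y 1 * z2 i
  left_inv x := by
    have key : ∀ i, (x 0 * z2 1 - x 1 * z2 0) / (z1 0 * z2 1 - z1 1 * z2 0) * z1 i +
        (z1 0 * x 1 - z1 1 * x 0) / (z1 0 * z2 1 - z1 1 * z2 0) * z2 i = x i := by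
      intro i
      rw [div_mul_eq_mul_div, div_mul_eq_mul_div, ← add_div, div_eq_iff h]
      fin_cases i
      · change (x 0 * z2 1 - x 1 * z2 0) * z1 0 + (z1 0 * x 1 - z1 1 * x 0) * z2 0 =
          x 0 * (z1 0 * z2 1 - z1 1 * z2 0)
        ring
      · change (x 0 * z2 1 - x 1 * z2 0) * z1 1 + (z1 0 * x 1 - z1 1 * x 0) * z2 1 =
          x 1 * (z1 0 * z2 1 - z1 1 * z2 0)
        ring
    funext i
    exact key i
  right_inv y := by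
    funext i
    fin_cases i
    · change ((y 0 * z1 0 + y 1 * z2 0) * z2 1 - (y 0 * z1 1 + y 1 * z2 1) * z2 0) /
        (z1 0 * z2 1 - z1 1 * z2 0) = y 0
      rw [div_eq_iff h]
      ring
    · change (z1 0 * (y 0 * z1 1 + y 1 * z2 1) - z1 1 * (y 0 * z1 0 + y 1 * z2 0)) /
        (z1 0 * z2 1 - z1 1 * z2 0) = y 1
      rw [div_eq_iff h]
      ring

theorem eqv_fst (z1 z2 : Fin 2 → ℝ) (h : z1 0 * z2 1 - z1 1 * z2 0 ≠ 0) :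
    eqv z1 z2 h z1 = ![1, 0] := by
  funext i
  fin_cases i
  · change (z1 0 * z2 1 - z1 1 * z2 0) / (z1 0 * z2 1 - z1 1 * z2 0) = 1
    exact div_self h
  · change (z1 0 * z1 1 - z1 1 * z1 0) / (z1 0 * z2 1 - z1 1 * z2 0) = 0
    rw [mul_comm (z1 0), sub_self, zero_div]

theorem eqv_snd (z1 z2 : Fin 2 → ℝ) (h : z1 0 * z2 1 - z1 1 * z2 0 ≠ 0) :
    eqv z1 z2 h z2 = ![0, 1] := by
  funext i
  fin_cases i
  · change (z2 0 * z2 1 - z2 1 * z2 0) / (z1 0 * z2 1 - z1 1 * z2 0) = 0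
    rw [mul_comm (z2 0), sub_self, zero_div]
  · change (z1 0 * z2 1 - z1 1 * z2 0) / (z1 0 * z2 1 - z1 1 * z2 0) = 1
    exact div_self h

theorem eqv_pair (z1 z2 : Fin 2 → ℝ) (h : z1 0 * z2 1 - z1 1 * z2 0 ≠ 0) (p x y : Fin 2 → ℝ) :
    ∑ i, (![∑ j, p j * z1 j, ∑ j, p j * z2 j] : Fin 2 → ℝ) i *
      (eqv z1 z2 h x i - eqv z1 z2 h y i) = ∑ i, p i * (x i - y i) := by
  simp only [Fin.sum_univ_two]
  change (p 0 * z1 0 + p 1 * z1 1) * ((x 0 * z2 1 - x 1 * z2 0) / (z1 0 * z2 1 - z1 1 * z2 0) -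
      (y 0 * z2 1 - y 1 * z2 0) / (z1 0 * z2 1 - z1 1 * z2 0)) +
    (p 0 * z2 0 + p 1 * z2 1) * ((z1 0 * x 1 - z1 1 * x 0) / (z1 0 * z2 1 - z1 1 * z2 0) -
      (z1 0 * y 1 - z1 1 * y 0) / (z1 0 * z2 1 - z1 1 * z2 0)) = _
  field_simp
  ring

theorem pl (hPLS : PLSStmt) (hPLN : PLNStmt) : PLStmt := by
  intro P hP
  obtain ⟨z1, z2, hd, ⟨x1, hx1, hy1⟩, ⟨x2, hx2, hy2⟩, ⟨x3, hx3, hy3⟩, ⟨p1, hp1, hq1⟩,
    ⟨p2, hp2, hq2⟩, ⟨p3, hp3, hq3⟩⟩ := hPLN P hP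
  have hdp : ∀ p ∈ dpol P, (![∑ j, p j * z1 j, ∑ j, p j * z2 j] : Fin 2 → ℝ) ∈
      dpol (eqv z1 z2 hd '' P) := by
    rintro p hp _ ⟨x, hx, rfl⟩ _ ⟨y, hy, rfl⟩
    rw [eqv_pair]
    exact hp x hx y hy
  have hB : IsBody (eqv z1 z2 hd '' P) := by
    have := hP.affine (eqv z1 z2 hd).toAffineEquiv
    exact this
  have := hPLS (eqv z1 z2 hd '' P) hB
    ⟨_, ⟨x1, hx1, rfl⟩, ⟨x1 + z1, hy1, by rw [map_add, eqv_fst]⟩⟩
    ⟨_, ⟨x2, hx2, rfl⟩, ⟨x2 + z2, hy2, by rw [map_add, eqv_snd]⟩⟩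
    ⟨_, ⟨x3, hx3, rfl⟩, ⟨x3 + (z1 + z2), hy3, by
      rw [map_add, map_add, eqv_fst, eqv_snd]
      congr 1
      funext i
      fin_cases i <;> simp⟩⟩
    ⟨_, hdp p1 hp1, hq1⟩ ⟨_, hdp p2 hp2, hq2⟩
    ⟨_, hdp p3 hp3, by
      change ∑ j, p3 j * z1 j + ∑ j, p3 j * z2 j = 1
      rw [← Finset.sum_add_distrib, ← hq3]
      refine Finset.sum_congr rfl fun i _ => ?_
      ring⟩
  rwa [F_linear] at this

end Pool.Agent.Helper89.MK
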